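import Pool.Agent.H644.HD.Ideals
import Pool.Agent.H644.HD.Succ

/-!
# Higher dimensional bounding and dominating numbers for `≠*`: the continuum is at most `ℵ₂`
-/

set_option autoImplicit false

open Cardinal Set Filter

namespace Pool.Agent.H644.HD.AlephTwo

open Pool.Agent.H644.HD

section reg

variable {τ : Cardinal.{0}} (hc : (𝔠 : Cardinal.{0}) = Order.succ τ)

include hc

/-- The second half of the argument: `bb Om ≤ dNe J` (as in the library). -/
theorem bb_le_dNe (J : Set (Set BS)) (hJ : Lus Om J) (hJ0 : ∅ ∈ J) : bb Om ≤ dNe J := by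
  classical
  have ρ : BS ≃ Om := (Cardinal.eq.1 (by rw [mk_BS, mk_Om])).some
  obtain ⟨T, hTc⟩ : ∃ T : Type, #T = τ := ⟨τ.out, mk_out τ⟩
  obtain ⟨e, he⟩ := Succ.exists_enum hc T hTc
  have hT : ∀ b : T → Om, ∃ a, ∀ t, b t < a := by
    intro b
    obtain ⟨a, ha⟩ := bdd hc (range b) (mk_range_le.trans_lt (lt_of_le_tau hc hTc.le))
    exact ⟨a, fun t => ha _ ⟨t, rfl⟩⟩
  have hΩ : ∀ (i : Om) (f : Om → Om), ∃ a, ∀ j < i, f j < a := by
    intro i f
    obtain ⟨a, ha⟩ := bdd hc (f '' Iio i) (mk_image_le.trans_lt (mk_Iio i))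
    exact ⟨a, fun j hj => ha _ ⟨j, hj, rfl⟩⟩
  have heq : Nonempty (Om ≃ Om × T) := by
    rw [← Cardinal.eq, mk_prod, lift_id, lift_id, mk_Om, hTc, mul_eq_left aleph0_le_continuum
      (lt_of_le_tau hc le_rfl).le (aleph0_pos.trans_le (tau_inf hc)).ne']
  obtain ⟨eq⟩ := heq
  have hcol : ∀ t a, ∃ b, a < b ∧ (eq b).2 = t := by
    intro t a
    by_contra hcon
    push Not at hcon
    obtain ⟨a', ha'⟩ := exists_gt' hc a
    have h1 : #Om ≤ #(Iio a') := by
      refine mk_le_of_injective (f := fun b : Om => (⟨eq.symm (b, t), ?_⟩ : Iio a')) ?_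
      · have h2 : ¬ a < eq.symm (b, t) := fun h => hcon _ h (by simp)
        exact (not_lt.1 h2).trans_lt ha'
      · intro b b' h
        have h2 := congrArg Subtype.val h
        simpa using h2
    rw [mk_Om] at h1
    exact absurd (mk_Iio a') (not_lt.2 h1)
  exact le_dNe ρ e he hT hΩ (exists_gt' hc) (fun b => (eq b).2) hcol J hJ hJ0

/-- An unbounded family is unbounded for continuum many functions at once. -/
theorem simul {F : Set (Om → Om)} (hF : UnbFam F) (h : Om → Om → Om) :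
    ∃ f ∈ F, ∀ b γ, ∃ α, γ < α ∧ h b α < f α := by
  have h1 : ∀ α : Om, ∃ a, ∀ b < α, h b α < a := by
    intro α
    obtain ⟨a, ha⟩ := bdd hc ((fun b => h b α) '' Iio α) (mk_image_le.trans_lt (mk_Iio α))
    exact ⟨a, fun b hb => ha _ ⟨b, hb, rfl⟩⟩
  choose H hH using h1
  obtain ⟨f, hf, hf2⟩ := hF H
  refine ⟨f, hf, fun b γ => ?_⟩
  obtain ⟨α, hα, hα2⟩ := hf2 (max b γ)
  exact ⟨α, (le_max_right _ _).trans_lt hα, (hH α b ((le_max_left _ _).trans_lt hα)).trans hα2⟩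

/-- Unbounded sets have continuum many elements above each point. -/
theorem mk_unbounded {A : Set Om} (hA : ∀ γ, ∃ α, γ < α ∧ α ∈ A) (γ : Om) :
    𝔠 ≤ #(A ∩ Ioi γ : Set Om) := by
  by_contra hcon
  rw [not_le] at hcon
  obtain ⟨a, ha⟩ := bdd hc _ hcon
  obtain ⟨α, hα, hαA⟩ := hA (max a γ)
  exact absurd (ha α ⟨hαA, (le_max_right _ _).trans_lt hα⟩)
    (not_lt.2 ((le_max_left _ _).trans hα.le))

/-- Closure points of `k` above `α`. -/
theorem closure (hu : (ℵ₀ : Cardinal.{0}) < 𝔠) (k : Om → Om) (α : Om) : ∃ δ, α < δ ∧ ∀ β < δ, k β < δ := by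
  classical
  have step : ∀ a : Om, ∃ b, a < b ∧ ∀ β ≤ a, k β < b := by
    intro a
    obtain ⟨a', ha'⟩ := exists_gt' hc a
    obtain ⟨b, hb⟩ := bdd hc (k '' Iio a') (mk_image_le.trans_lt (mk_Iio a'))
    obtain ⟨b', hb'⟩ := exists_gt' hc (max a b)
    exact ⟨b', (le_max_left _ _).trans_lt hb', fun β hβ =>
      (hb _ ⟨β, hβ.trans_lt ha', rfl⟩).trans ((le_max_right _ _).trans_lt hb')⟩
  choose s hs1 hs2 using step
  let a : ℕ → Om := fun n => Nat.rec (s α) (fun _ x => s x) n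
  have ha0 : α < a 0 := hs1 α
  have has : ∀ n, a (n + 1) = s (a n) := fun n => rfl
  have hne : ({δ | ∀ n, a n ≤ δ} : Set Om).Nonempty := by
    obtain ⟨δ, hδ⟩ := bdd hc (range a) ((mk_range_le (f := a)).trans_lt (by simpa using hu))
    exact ⟨δ, fun n => (hδ _ ⟨n, rfl⟩).le⟩
  let δ : Om := (wellFounded_lt (α := Om)).min _ hne
  have hδ1 : ∀ n, a n ≤ δ := (wellFounded_lt (α := Om)).min_mem _ hne
  have hδ2 : ∀ β < δ, ∃ n, β < a n := by
    intro β hβ
    apply Classical.byContradiction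
    intro hcon
    have hcon' : ∀ n, a n ≤ β := fun n => not_lt.1 fun h => hcon ⟨n, h⟩
    exact (wellFounded_lt (α := Om)).not_lt_min _ (show β ∈ {δ | ∀ n, a n ≤ δ} from hcon') hβ
  refine ⟨δ, ha0.trans_le (hδ1 0), fun β hβ => ?_⟩
  obtain ⟨n, hn⟩ := hδ2 β hβ
  have h1 : k β < a (n + 1) := by
    rw [has]; exact hs2 _ _ hn.le
  exact h1.trans_le (hδ1 (n + 1))

/-- If `Iio a` has size at most `ℵ₁` for all `a`, each function `k` gives a function `g` into
`ω₁` which is unbounded on every set with uncountably many elements between `α` and `k α`,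
for some `α`. -/
theorem exists_colour (hu : (ℵ₀ : Cardinal.{0}) < 𝔠) (T : Type) [LinearOrder T] [Nonempty T]
    (hTc : ∀ t : T, (Iic t).Countable)
    (hsm : ∀ a : Om, #(Iio a) ≤ #T) :
    ∃ (g : (Om → Om) → Om → T) , ∀ (k : Om → Om) (A : Set Om) (α : Om),
      ¬ (A ∩ Ioo α (k α)).Countable → ∀ t : T, ∃ x ∈ A, t < g k x := by
  classical
  have em : ∀ a : Om, Iio a ↪ T := fun a => ((Cardinal.le_def _ _).1 (hsm a)).some
  let idx : Om → Om → T := fun a b => if h : b < a then em a ⟨b, h⟩ else Classical.arbitrary T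
  have hidx : ∀ a b b', b < a → b' < a → idx a b = idx a b' → b = b' := by
    intro a b b' hb hb' h
    simp only [idx, dif_pos hb, dif_pos hb'] at h
    exact congrArg Subtype.val ((em a).injective h)
  have hcl : ∀ (k : Om → Om) (α : Om), ({δ | α < δ ∧ ∀ β < δ, k β < δ} : Set Om).Nonempty :=
    fun k α => closure hc hu k α
  let dl : (Om → Om) → Om → Om := fun k α => (wellFounded_lt (α := Om)).min _ (hcl k α)
  have hdl : ∀ k α, α < dl k α ∧ ∀ β < dl k α, k β < dl k α :=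
    fun k α => (wellFounded_lt (α := Om)).min_mem _ (hcl k α)
  have hdl2 : ∀ k α δ, α < δ → (∀ β < δ, k β < δ) → dl k α ≤ δ := by
    intro k α δ h1 h2
    exact not_lt.1 ((wellFounded_lt (α := Om)).not_lt_min _
      (show δ ∈ {δ | α < δ ∧ ∀ β < δ, k β < δ} from ⟨h1, h2⟩))
  refine ⟨fun k x => idx (dl k x) x, ?_⟩
  intro k A α hA t
  by_contra hcon
  push Not at hcon
  apply hA
  have hsame : ∀ x ∈ Ioo α (k α), dl k x = dl k α := by
    intro x hx
    have h1 : k α < dl k α := (hdl k α).2 α (hdl k α).1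
    apply le_antisymm
    · exact hdl2 k x _ (hx.2.trans h1) (hdl k α).2
    · exact hdl2 k α _ (hx.1.trans (hdl k x).1) (hdl k x).2
  have hinj : Set.InjOn (fun x => idx (dl k x) x) (A ∩ Ioo α (k α)) := by
    intro x hx y hy hxy
    simp only at hxy
    rw [hsame x hx.2, hsame y hy.2] at hxy
    have h1 : k α < dl k α := (hdl k α).2 α (hdl k α).1
    exact hidx _ _ _ (hx.2.2.trans h1) (hy.2.2.trans h1) hxy
  refine Set.MapsTo.countable_of_injOn (t := Iic t) ?_ hinj (hTc t)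
  intro x hx
  exact hcon x hx.1

/-- The combinatorial core: a family of `bb Om` many countable-set-valued functions which
captures continuum many functions simultaneously. -/
theorem capture (h2 : τ = ℵ₁) : ∃ 𝒮 : Set (Om → Set Om), #𝒮 ≤ bb Om ∧
    (∀ S ∈ 𝒮, ∀ y, (S y).Countable) ∧
    ∀ g : Om → Om → Om, ∃ S ∈ 𝒮, ∀ b, ∃ y, g b y ∈ S y := by
  classical
  have hu : (ℵ₀ : Cardinal.{0}) < 𝔠 := aleph0_lt_continuum
  have hmem : bb Om ∈ {κ | ∃ F : Set (Om → Om), UnbFam F ∧ #F = κ} :=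
    csInf_mem (by obtain ⟨F, hF⟩ := exists_unb hc; exact ⟨_, F, hF, rfl⟩)
  obtain ⟨F, hF, hFc⟩ := hmem
  let T : Type := (ℵ₁ : Cardinal.{0}).ord.ToType
  have hTm : #T = ℵ₁ := by simp [T]
  have : Nonempty T := by
    rw [← mk_ne_zero_iff, hTm]
    exact (aleph0_pos.trans (aleph0_lt_aleph_one)).ne'
  have hTc : ∀ t : T, (Iic t).Countable := by
    intro t
    have h1 : #(Iio t) < ℵ₁ := by simpa [T] using mk_Iio_lt t
    have h3 : (Iio t).Countable := by
      rw [← Cardinal.le_aleph0_iff_set_countable]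
      rw [← Order.lt_succ_iff, succ_aleph0]
      exact h1
    rw [← Iio_insert]
    exact h3.insert t
  have hsm : ∀ a : Om, #(Iio a) ≤ #T := by
    intro a
    rw [hTm, ← h2]
    exact le_tau hc (mk_Iio a)
  have hTb : ∀ b : T → Om, ∃ a, ∀ t, b t < a := by
    intro b
    obtain ⟨a, ha⟩ := bdd hc (range b) (mk_range_le.trans_lt (lt_of_le_tau hc (hTm.trans h2.symm).le))
    exact ⟨a, fun t => ha _ ⟨t, rfl⟩⟩
  obtain ⟨g, hg⟩ := exists_colour hc hu T hTc hsm
  have em : ∀ a : Om, Iio a ↪ T := fun a => ((Cardinal.le_def _ _).1 (hsm a)).some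
  let idx : Om → Om → T := fun a b => if h : b < a then em a ⟨b, h⟩ else Classical.arbitrary T
  have hidx : ∀ a b b', b < a → b' < a → idx a b = idx a b' → b = b' := by
    intro a b b' hb hb' h
    simp only [idx, dif_pos hb, dif_pos hb'] at h
    exact congrArg Subtype.val ((em a).injective h)
  let Sf : F × F → Om → Set Om := fun u y => {β | β < u.1.1 y ∧ idx (u.1.1 y) β < g u.2.1 y}
  refine ⟨range Sf, ?_, ?_, ?_⟩
  · refine mk_range_le.trans ?_
    rw [mk_prod, lift_id, hFc]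
    exact (mul_eq_self ((tau_inf hc).trans (tau_le_bb hc))).le
  · rintro _ ⟨u, rfl⟩ y
    refine Set.MapsTo.countable_of_injOn (f := fun β => idx (u.1.1 y) β) (t := Iic (g u.2.1 y))
      ?_ ?_ (hTc _)
    · intro β hβ
      exact hβ.2.le
    · intro β hβ β' hβ' h
      exact hidx _ _ _ hβ.1 hβ'.1 h
  · intro g0
    obtain ⟨f, hf, hf2⟩ := simul hc hF g0
    have hν : ∀ b, ∃ t : T, ∀ γ, ∃ y, γ < y ∧ (g0 b y < f y ∧ idx (f y) (g0 b y) = t) := by
      intro b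
      by_contra hcon
      push Not at hcon
      choose γ hγ using hcon
      obtain ⟨a, ha⟩ := hTb γ
      obtain ⟨y, hy, hy2⟩ := hf2 b a
      exact hγ (idx (f y) (g0 b y)) y ((ha _).trans hy) hy2 rfl
    choose t ht using hν
    have hn : ∀ b α, ∃ n, ¬ ({y | g0 b y < f y ∧ idx (f y) (g0 b y) = t b} ∩ Ioo α n).Countable := by
      intro b α
      have h1 := mk_unbounded hc (A := {y | g0 b y < f y ∧ idx (f y) (g0 b y) = t b}) (ht b) α
      have h3 : (ℵ₁ : Cardinal.{0}) ≤ #({y | g0 b y < f y ∧ idx (f y) (g0 b y) = t b} ∩ Ioi α :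
          Set Om) := by
        refine le_trans ?_ h1
        rw [← h2]
        exact (lt_of_le_tau hc le_rfl).le
      obtain ⟨S, hS, hSc⟩ := Cardinal.le_mk_iff_exists_subset.1 h3
      obtain ⟨n, hn⟩ := bdd hc S (by rw [hSc, ← h2]; exact lt_of_le_tau hc le_rfl)
      refine ⟨n, fun hcount => ?_⟩
      have h4 : S ⊆ {y | g0 b y < f y ∧ idx (f y) (g0 b y) = t b} ∩ Ioo α n :=
        fun y hy => ⟨(hS hy).1, (hS hy).2, hn y hy⟩
      have h5 := Cardinal.le_aleph0_iff_set_countable.2 (hcount.mono h4)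
      rw [hSc] at h5
      exact absurd h5 (not_le.2 aleph0_lt_aleph_one)
    choose n hn using hn
    obtain ⟨f', hf', hf2'⟩ := simul hc hF n
    refine ⟨Sf (⟨f, hf⟩, ⟨f', hf'⟩), ⟨_, rfl⟩, fun b => ?_⟩
    obtain ⟨α, -, hα⟩ := hf2' b b
    have h6 : ¬ ({y | g0 b y < f y ∧ idx (f y) (g0 b y) = t b} ∩ Ioo α (f' α)).Countable := by
      intro hcount
      exact hn b α (hcount.mono (inter_subset_inter_right _ (Ioo_subset_Ioo_right hα.le)))
    obtain ⟨y, hy, hty⟩ := hg f' _ α h6 (t b)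
    refine ⟨y, hy.1, ?_⟩
    change idx (f y) (g0 b y) < g f' y
    rw [hy.2]
    exact hty

/-- The case of the continuum hypothesis. -/
theorem capture_one (h2 : τ = ℵ₀) : ∃ 𝒮 : Set (Om → Set Om), #𝒮 ≤ bb Om ∧
    (∀ S ∈ 𝒮, ∀ y, (S y).Countable) ∧
    ∀ g : Om → Om → Om, ∃ S ∈ 𝒮, ∀ b, ∃ y, g b y ∈ S y := by
  classical
  have hmem : bb Om ∈ {κ | ∃ F : Set (Om → Om), UnbFam F ∧ #F = κ} :=
    csInf_mem (by obtain ⟨F, hF⟩ := exists_unb hc; exact ⟨_, F, hF, rfl⟩)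
  obtain ⟨F, hF, hFc⟩ := hmem
  refine ⟨range fun (f : F) (y : Om) => Iio (f.1 y), mk_range_le.trans hFc.le, ?_, ?_⟩
  · rintro _ ⟨f, rfl⟩ y
    rw [← Cardinal.le_aleph0_iff_set_countable, ← h2]
    exact le_tau hc (mk_Iio _)
  · intro g0
    obtain ⟨f, hf, hf2⟩ := simul hc hF g0
    refine ⟨_, ⟨⟨f, hf⟩, rfl⟩, fun b => ?_⟩
    obtain ⟨y, -, hy⟩ := hf2 b b
    exact ⟨y, hy⟩

end reg

/-- Countably many reals are infinitely often equal to a single real. -/
theorem exists_guess {C : Set BS} (hC : C.Countable) : ∃ s : BS, ∀ z ∈ C, ¬ EvDiff s z := by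
  rcases C.eq_empty_or_nonempty with rfl | hne
  · exact ⟨0, fun z hz => absurd hz (notMem_empty z)⟩
  · obtain ⟨z, hz⟩ := hC.exists_eq_range hne
    refine ⟨fun k => z k.unpair.1 k, ?_⟩
    intro w hw h
    rw [hz] at hw
    obtain ⟨n, rfl⟩ := hw
    obtain ⟨N, hN⟩ := eventually_atTop.1 h
    have h1 : N ≤ Nat.pair n N := Nat.right_le_pair n N
    apply hN _ h1
    simp

/-- A family which captures gives an upper bound for `𝔟(≠*_I)`. -/
theorem bNe_le_of_capture {I : Set (Set BS)} (hI : Good I) {κ : Cardinal.{0}}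
    (𝒮 : Set (Om → Set Om)) (h𝒮 : #𝒮 ≤ κ) (hcount : ∀ S ∈ 𝒮, ∀ y, (S y).Countable)
    (hcap : ∀ g : Om → Om → Om, ∃ S ∈ 𝒮, ∀ b, ∃ y, g b y ∈ S y) : bNe I ≤ κ := by
  classical
  have ρ : BS ≃ Om := (Cardinal.eq.1 (by rw [mk_BS, mk_Om])).some
  obtain ⟨B, x, hx, hB, hxB⟩ := Succ.exists_points hI Om mk_Om.le
  have hs : ∀ (S : 𝒮) (y : Om), ∃ s : BS, ∀ β ∈ S.1 y, ¬ EvDiff s (ρ.symm β) := by
    intro S y
    obtain ⟨s, hs⟩ := exists_guess ((hcount S.1 S.2 y).image ρ.symm)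
    exact ⟨s, fun β hβ => hs _ ⟨β, hβ, rfl⟩⟩
  choose s hs using hs
  let ex : 𝒮 → (BS → BS) := fun S z =>
    if h : ∃ p : Om × Om, x p = z then s S h.choose.2 else z
  have hex : ∀ (S : 𝒮) (b y : Om), ex S (x (b, y)) = s S y := by
    intro S b y
    have h : ∃ p : Om × Om, x p = x (b, y) := ⟨(b, y), rfl⟩
    have h3 : h.choose = (b, y) := hx h.choose_spec
    simp only [ex, dif_pos h]
    rw [h3]
  refine le_trans (csInf_le' ⟨range ex, ?_, rfl⟩) (mk_range_le.trans h𝒮)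
  rintro ⟨g, hg⟩
  obtain ⟨S, hS, hS2⟩ := hcap (fun b y => ρ (g (x (b, y))))
  obtain ⟨b, hb⟩ := hB _ (hg (ex ⟨S, hS⟩) ⟨_, rfl⟩)
  obtain ⟨y, hy⟩ := hS2 b
  apply hxB b y
  apply hb
  change ¬ EvDiff _ _
  rw [hex]
  have := hs ⟨S, hS⟩ y _ hy
  rwa [Equiv.symm_apply_apply] at this

/-- If the continuum is at most `ℵ₂`, then `𝔟(≠*_I) ≤ 𝔡(≠*_J)`. -/
theorem main {I : Set (Set BS)} (hI : Good I) (hc : (𝔠 : Cardinal.{0}) ≤ ℵ_ 2)
    (J : Set (Set BS)) (hJ : Lus Om J) (hJ0 : ∅ ∈ J) : bNe I ≤ dNe J := by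
  have h1 : (𝔠 : Cardinal.{0}) = ℵ_ 1 ∨ (𝔠 : Cardinal.{0}) = ℵ_ 2 := by
    have h2 : (ℵ_ 2 : Cardinal.{0}) = Order.succ (ℵ_ 1) := by
      rw [succ_aleph]
      norm_num
    rcases hc.lt_or_eq with h | h
    · left
      apply le_antisymm _ aleph_one_le_continuum
      rw [h2] at h
      exact Order.lt_succ_iff.1 h
    · exact Or.inr h
  rcases h1 with h1 | h1
  · have hs : (𝔠 : Cardinal.{0}) = Order.succ ℵ₀ := by rw [h1, succ_aleph0]
    obtain ⟨𝒮, h𝒮, hcount, hcap⟩ := capture_one hs rfl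
    exact (bNe_le_of_capture hI 𝒮 h𝒮 hcount hcap).trans (bb_le_dNe hs J hJ hJ0)
  · have hs : (𝔠 : Cardinal.{0}) = Order.succ ℵ₁ := by
      rw [h1, succ_aleph]
      norm_num
    obtain ⟨𝒮, h𝒮, hcount, hcap⟩ := capture hs rfl
    exact (bNe_le_of_capture hI 𝒮 h𝒮 hcount hcap).trans (bb_le_dNe hs J hJ hJ0)

end Pool.Agent.H644.HD.AlephTwo
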